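import Pool.Agent.L0h7.KN.Stm

/-! # `K₀` commutes with colimits of sequences of rings -/

set_option autoImplicit false

open CategoryTheory

noncomputable section

namespace Pool.Agent.L0h71.KN

open Pool.Agent.Y75.NK Pool.Agent.L0h7.KN

variable {D : ℕ ⥤ RingCat.{0}} {B : RingCat.{0}} {c : ∀ i, D.obj i ⟶ B}

/-- the transition maps of the sequence -/
def tr (D : ℕ ⥤ RingCat.{0}) {i j : ℕ} (h : i ≤ j) : D.obj i →+* D.obj j := (D.map (homOfLE h)).hom

theorem tr_eq (D : ℕ ⥤ RingCat.{0}) {i j : ℕ} (h : i ⟶ j) : (D.map h).hom = tr D (leOfHom h) := rfl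

theorem tr_tr (D : ℕ ⥤ RingCat.{0}) {i j k : ℕ} (h : i ≤ j) (h' : j ≤ k) (x : D.obj i) :
    tr D h' (tr D h x) = tr D (h.trans h') x := by
  have h1 : D.map (homOfLE (h.trans h')) = D.map (homOfLE h) ≫ D.map (homOfLE h') := by
    rw [← D.map_comp, homOfLE_comp]
  unfold tr
  rw [h1]
  rfl

theorem tr_comp (D : ℕ ⥤ RingCat.{0}) {i j k : ℕ} (h : i ≤ j) (h' : j ≤ k) :
    (tr D h').comp (tr D h) = tr D (h.trans h') := RingHom.ext (tr_tr D h h')

theorem tr_self (D : ℕ ⥤ RingCat.{0}) (i : ℕ) (h : i ≤ i) : tr D h = RingHom.id _ := by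
  have h1 : D.map (homOfLE h) = 𝟙 _ := by
    rw [show homOfLE h = 𝟙 i from rfl, D.map_id]
  unfold tr
  rw [h1]
  rfl

theorem c_tr (H : RCol D B c) {i j : ℕ} (h : i ≤ j) (x : D.obj i) :
    (c j).hom (tr D h x) = (c i).hom x := by
  have h1 := H.comp (homOfLE h)
  unfold tr
  rw [← h1]
  rfl

theorem c_comp (H : RCol D B c) {i j : ℕ} (h : i ≤ j) :
    (c j).hom.comp (tr D h) = (c i).hom := RingHom.ext (c_tr H h)

/-- lifting of finitely many elements -/
theorem lift_fun (H : RCol D B c) {ι : Type} [Fintype ι] (f : ι → B) (i0 : ℕ) :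
    ∃ (j : ℕ) (_ : i0 ≤ j) (g : ι → D.obj j), ∀ k, (c j).hom (g k) = f k := by
  choose i a ha using fun k => H.surj (f k)
  let j := i0 + ∑ k, i k
  have hj : ∀ k, i k ≤ j := fun k =>
    (Finset.single_le_sum (f := i) (fun _ _ => Nat.zero_le _) (Finset.mem_univ k)).trans
      (Nat.le_add_left _ _)
  refine ⟨j, Nat.le_add_right _ _, fun k => tr D (hj k) (a k), fun k => ?_⟩
  rw [c_tr H, ha]

/-- finitely many equalities hold at a later stage -/
theorem eq_fun (H : RCol D B c) {ι : Type} [Fintype ι] {i0 : ℕ} (f g : ι → D.obj i0)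
    (h : ∀ k, (c i0).hom (f k) = (c i0).hom (g k)) :
    ∃ (j : ℕ) (hj : i0 ≤ j), ∀ k, tr D hj (f k) = tr D hj (g k) := by
  have h1 : ∀ k, ∃ (j : ℕ) (h : i0 ⟶ j), (D.map h).hom (f k - g k) = 0 := fun k =>
    H.inj i0 _ (by rw [map_sub, h k, sub_self])
  choose i hi h2 using h1
  have hj : ∀ k, i k ≤ i0 + ∑ k, i k := fun k =>
    (Finset.single_le_sum (f := i) (fun _ _ => Nat.zero_le _) (Finset.mem_univ k)).trans
      (Nat.le_add_left _ _)
  refine ⟨i0 + ∑ k, i k, Nat.le_add_right _ _, fun k => ?_⟩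
  have h3 := h2 k
  rw [tr_eq, map_sub, sub_eq_zero] at h3
  rw [← tr_tr D (leOfHom (hi k)) (hj k), h3, tr_tr]

theorem lift_mat (H : RCol D B c) {a b : ℕ} (M : Matrix (Fin a) (Fin b) B) (i0 : ℕ) :
    ∃ (j : ℕ) (_ : i0 ≤ j) (N : Matrix (Fin a) (Fin b) (D.obj j)), N.map (c j).hom = M := by
  obtain ⟨j, hj, g, hg⟩ := lift_fun H (fun p : Fin a × Fin b => M p.1 p.2) i0
  refine ⟨j, hj, Matrix.of fun x y => g (x, y), ?_⟩
  ext x y
  exact hg (x, y)

theorem eq_mat (H : RCol D B c) {a b i0 : ℕ} (M N : Matrix (Fin a) (Fin b) (D.obj i0))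
    (h : M.map (c i0).hom = N.map (c i0).hom) :
    ∃ (j : ℕ) (hj : i0 ≤ j), M.map (tr D hj) = N.map (tr D hj) := by
  obtain ⟨j, hj, hg⟩ := eq_fun H (fun p : Fin a × Fin b => M p.1 p.2) (fun p => N p.1 p.2)
    (fun p => congrFun (congrFun h p.1) p.2)
  refine ⟨j, hj, ?_⟩
  ext x y
  exact hg (x, y)

theorem mat_tr (D : ℕ ⥤ RingCat.{0}) {i j k : ℕ} (h : i ≤ j) (h' : j ≤ k) {a b : ℕ}
    (M : Matrix (Fin a) (Fin b) (D.obj i)) :
    (M.map (tr D h)).map (tr D h') = M.map (tr D (h.trans h')) := by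
  ext x y
  exact tr_tr D h h' _

theorem mat_c (H : RCol D B c) {i j : ℕ} (h : i ≤ j) {a b : ℕ}
    (M : Matrix (Fin a) (Fin b) (D.obj i)) :
    (M.map (tr D h)).map (c j).hom = M.map (c i).hom := by
  ext x y
  exact c_tr H h _

theorem idem_ext {A : Type} [Ring A] {n : ℕ} {M N : Matrix (Fin n) (Fin n) A} (h : M = N)
    (hM : M * M = M) (hN : N * N = N) : (⟨n, M, hM⟩ : Idem A) = ⟨n, N, hN⟩ := by
  subst h
  rfl

theorem idem_c (H : RCol D B c) {i j : ℕ} (h : i ≤ j) (e : Idem (D.obj i)) :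
    (e.map (tr D h)).map (c j).hom = e.map (c i).hom :=
  idem_ext (mat_c H h e.e) _ _

theorem idem_tr (D : ℕ ⥤ RingCat.{0}) {i j k : ℕ} (h : i ≤ j) (h' : j ≤ k) (e : Idem (D.obj i)) :
    (e.map (tr D h)).map (tr D h') = e.map (tr D (h.trans h')) :=
  idem_ext (mat_tr D h h' e.e) _ _

/-- lifting of idempotent matrices -/
theorem lift_idem (H : RCol D B c) (e : Idem B) (i0 : ℕ) :
    ∃ (j : ℕ) (_ : i0 ≤ j) (f : Idem (D.obj j)), f.map (c j).hom = e := by
  obtain ⟨i, hi, N, hN⟩ := lift_mat H e.e i0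
  have h1 : (N * N).map (c i).hom = N.map (c i).hom := by
    rw [Matrix.map_mul, hN, e.idem]
  obtain ⟨j, hj, h2⟩ := eq_mat H _ _ h1
  rw [Matrix.map_mul] at h2
  refine ⟨j, hi.trans hj, ⟨e.n, N.map (tr D hj), h2⟩, ?_⟩
  exact idem_ext ((mat_c H hj N).trans hN) _ _

/-- the transition maps of the `K₀` -/
def kt (D : ℕ ⥤ RingCat.{0}) (i j : ℕ) (h : i ≤ j) : K0 (D.obj i) →+ K0 (D.obj j) :=
  K0.map (tr D h)

instance dsys (D : ℕ ⥤ RingCat.{0}) :
    DirectedSystem (fun i => K0 (D.obj i)) fun i j h => kt D i j h where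
  map_self i x := by
    have h1 : kt D i i le_rfl = AddMonoidHom.id _ := by
      unfold kt
      rw [tr_self, K0.map_id]
    rw [h1]
    rfl
  map_map k j i h h' x := by
    have h1 : kt D i k (h.trans h') = (kt D j k h').comp (kt D i j h) := by
      unfold kt
      rw [← K0.map_comp, tr_comp]
    rw [h1]
    rfl

/-- the limit of the `K₀` -/
abbrev Lim (D : ℕ ⥤ RingCat.{0}) : Type :=
  AddCommGroup.DirectLimit (fun i => K0 (D.obj i)) (kt D)

/-- the canonical map to the limit -/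
def ofL (D : ℕ ⥤ RingCat.{0}) (i : ℕ) : K0 (D.obj i) →+ Lim D :=
  AddCommGroup.DirectLimit.of _ (kt D) i

theorem ofL_tr (D : ℕ ⥤ RingCat.{0}) {i j : ℕ} (h : i ≤ j) (e : Idem (D.obj i)) :
    ofL D j (cls (e.map (tr D h))) = ofL D i (cls e) :=
  AddCommGroup.DirectLimit.of_f (G := fun i => K0 (D.obj i)) (f := kt D) h (cls e)

/-- idempotent matrices with the same image over `B` have the same class in the limit -/
theorem ofL_eq (H : RCol D B c) {i j : ℕ} (e : Idem (D.obj i)) (f : Idem (D.obj j))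
    (h : e.map (c i).hom = f.map (c j).hom) : ofL D i (cls e) = ofL D j (cls f) := by
  obtain ⟨n, e, he⟩ := e
  obtain ⟨m, f, hf⟩ := f
  have hn : n = m := congrArg Idem.n h
  subst hn
  have h1 : e.map (c i).hom = f.map (c j).hom := by
    have h2 : (⟨n, e.map (c i).hom, (Idem.map (c i).hom ⟨n, e, he⟩).idem⟩ : Idem B) =
      ⟨n, f.map (c j).hom, (Idem.map (c j).hom ⟨n, f, hf⟩).idem⟩ := h
    injection h2
  have h3 : (e.map (tr D (Nat.le_add_right i j))).map (c (i + j)).hom =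
      (f.map (tr D (Nat.le_add_left j i))).map (c (i + j)).hom := by
    rw [mat_c H, mat_c H, h1]
  obtain ⟨k, hk, h4⟩ := eq_mat H _ _ h3
  rw [mat_tr, mat_tr] at h4
  rw [← ofL_tr D ((Nat.le_add_right i j).trans hk), ← ofL_tr D ((Nat.le_add_left j i).trans hk)]
  congr 2
  exact idem_ext h4 _ _

/-- the class in the limit of an idempotent matrix over `B` -/
def psi0 (H : RCol D B c) (e : Idem B) : Lim D :=
  ofL D (lift_idem H e 0).choose (cls (lift_idem H e 0).choose_spec.choose_spec.choose)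

theorem psi0_eq (H : RCol D B c) {i : ℕ} (e : Idem (D.obj i)) :
    psi0 H (e.map (c i).hom) = ofL D i (cls e) :=
  ofL_eq H _ _ (lift_idem H (e.map (c i).hom) 0).choose_spec.choose_spec.choose_spec

theorem psi0_sum (H : RCol D B c) (e f : Idem B) :
    psi0 H (e.sum f) = psi0 H e + psi0 H f := by
  obtain ⟨i, -, e', rfl⟩ := lift_idem H e 0
  obtain ⟨j, hj, f', rfl⟩ := lift_idem H f i
  rw [← idem_c H hj, ← map_sum_equiv, psi0_eq, psi0_eq, psi0_eq, cls_sum, map_add]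

theorem equiv_aux (H : RCol D B c) {i n m : ℕ} (e : Matrix (Fin n) (Fin n) (D.obj i))
    (f : Matrix (Fin m) (Fin m) (D.obj i)) (x : Matrix (Fin n) (Fin m) B)
    (y : Matrix (Fin m) (Fin n) B) (hx : x * y = e.map (c i).hom) (hy : y * x = f.map (c i).hom) :
    ∃ (j : ℕ) (hj : i ≤ j) (x' : Matrix (Fin n) (Fin m) (D.obj j))
      (y' : Matrix (Fin m) (Fin n) (D.obj j)), x' * y' = e.map (tr D hj) ∧
        y' * x' = f.map (tr D hj) := by
  obtain ⟨k, hk, x', hx'⟩ := lift_mat H x i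
  obtain ⟨l, hl, y', hy'⟩ := lift_mat H y k
  have h1 : (x'.map (tr D hl) * y').map (c l).hom = (e.map (tr D (hk.trans hl))).map (c l).hom := by
    rw [Matrix.map_mul, mat_c H, mat_c H, hx', hy', hx]
  have h2 : (y' * x'.map (tr D hl)).map (c l).hom = (f.map (tr D (hk.trans hl))).map (c l).hom := by
    rw [Matrix.map_mul, mat_c H, mat_c H, hx', hy', hy]
  obtain ⟨p, hp, h3⟩ := eq_mat H _ _ h1
  obtain ⟨q, hq, h4⟩ := eq_mat H ((y' * x'.map (tr D hl)).map (tr D hp))
    ((f.map (tr D (hk.trans hl))).map (tr D hp)) (by rw [mat_c H, mat_c H, h2])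
  refine ⟨q, ((hk.trans hl).trans hp).trans hq, (x'.map (tr D hl)).map (tr D (hp.trans hq)),
    y'.map (tr D (hp.trans hq)), ?_, ?_⟩
  · have h6 := congrArg (fun M => M.map (tr D hq)) h3
    simp only [mat_tr] at h6
    rw [← Matrix.map_mul, h6]
  · simp only [mat_tr] at h4
    rw [← Matrix.map_mul, h4]

theorem psi0_equiv (H : RCol D B c) (e f : Idem B) (h : e.Equiv f) : psi0 H e = psi0 H f := by
  obtain ⟨i, -, e', he⟩ := lift_idem H e 0
  obtain ⟨j, hj, f', hf⟩ := lift_idem H f i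
  obtain ⟨x, y, hx, hy⟩ := h
  subst he hf
  obtain ⟨k, hk, x', y', h1, h2⟩ := equiv_aux H (e'.e.map (tr D hj)) f'.e x y
    (hx.trans (mat_c H hj e'.e).symm) hy
  have h5 : cls ((e'.map (tr D hj)).map (tr D hk)) = cls (f'.map (tr D hk)) :=
    cls_eq ⟨x', y', h1, h2⟩
  rw [psi0_eq, psi0_eq, ← ofL_tr D hj, ← ofL_tr D hk, h5, ofL_tr]

/-- the universal property of `K₀` -/
theorem rel_ker {A : Type} [Ring A] {M : Type} [AddCommGroup M] (p : Idem A → M)
    (h1 : ∀ e f, p (e.sum f) = p e + p f) (h2 : ∀ e f : Idem A, e.Equiv f → p e = p f) :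
    ∀ z ∈ rel A, FreeAbelianGroup.lift p z = 0 := by
  have hle : rel A ≤ (FreeAbelianGroup.lift p).ker := by
    unfold rel
    rw [AddSubgroup.closure_le]
    rintro z (⟨e, f, rfl⟩ | ⟨e, f, h, rfl⟩)
    · refine AddMonoidHom.mem_ker.2 ?_
      rw [map_sub, map_sub, FreeAbelianGroup.lift_apply_of, FreeAbelianGroup.lift_apply_of,
        FreeAbelianGroup.lift_apply_of, h1]
      abel
    · refine AddMonoidHom.mem_ker.2 ?_
      rw [map_sub, FreeAbelianGroup.lift_apply_of, FreeAbelianGroup.lift_apply_of, h2 e f h,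
        sub_self]
  exact fun z hz => AddMonoidHom.mem_ker.1 (hle hz)

/-- the map from `K₀(A)` given by an additive invariant of idempotents -/
def univ {A : Type} [Ring A] {M : Type} [AddCommGroup M] (p : Idem A → M)
    (h1 : ∀ e f, p (e.sum f) = p e + p f) (h2 : ∀ e f : Idem A, e.Equiv f → p e = p f) :
    K0 A →+ M :=
  QuotientAddGroup.lift (rel A) (FreeAbelianGroup.lift p) (rel_ker p h1 h2)

theorem univ_cls {A : Type} [Ring A] {M : Type} [AddCommGroup M] (p : Idem A → M)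
    (h1 : ∀ e f, p (e.sum f) = p e + p f) (h2 : ∀ e f : Idem A, e.Equiv f → p e = p f)
    (e : Idem A) : univ p h1 h2 (cls e) = p e :=
  FreeAbelianGroup.lift_apply_of _ _

/-- the map from `K₀(B)` to the limit -/
def psi (H : RCol D B c) : K0 B →+ Lim D := univ (psi0 H) (psi0_sum H) (psi0_equiv H)

theorem psi_cls (H : RCol D B c) (e : Idem B) : psi H (cls e) = psi0 H e :=
  univ_cls _ _ _ e

theorem psi_map (H : RCol D B c) (i : ℕ) (x : K0 (D.obj i)) :
    psi H (K0.map (c i).hom x) = ofL D i x := by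
  have h : (psi H).comp (K0.map (c i).hom) = ofL D i := by
    apply K0.hom_ext
    intro e
    change psi H (K0.map (c i).hom (cls e)) = ofL D i (cls e)
    rw [K0.map_cls, psi_cls, psi0_eq]
  exact DFunLike.congr_fun h x

theorem t_KZ : S_KZ := by
  intro D B c H
  refine ⟨?_, ?_, ?_⟩
  · intro i j h
    have h1 := congrArg (fun f => K0F.map f) (H.comp h)
    simp only [K0F.map_comp] at h1
    exact h1
  · intro b
    obtain ⟨e, f, hb⟩ := exists_sub (A := B) b
    obtain ⟨i, -, e', he⟩ := lift_idem H e 0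
    obtain ⟨j, hj, f', hf⟩ := lift_idem H f i
    refine ⟨j, (cls (e'.map (tr D hj)) - cls f' : K0 (D.obj j)), ?_⟩
    change K0.map (c j).hom (cls (e'.map (tr D hj)) - cls f') = b
    rw [map_sub, K0.map_cls, K0.map_cls, idem_c H, he, hf]
    exact hb.symm
  · intro i a ha
    have h1 : ofL D i a = 0 := by
      rw [← psi_map H i a]
      have h2 : K0.map (c i).hom a = 0 := ha
      rw [h2, map_zero]
    obtain ⟨j, hij, h3⟩ := AddCommGroup.DirectLimit.of.zero_exact
      (G := fun i => K0 (D.obj i)) (f := kt D) i a h1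
    exact ⟨j, homOfLE hij, h3⟩

end Pool.Agent.L0h71.KN
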